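import Pool.Agent.Lib_helper79.QE.Abs

/-!
Block K2 of the quasi-equivalence project: the coefficient functionals of a Schauder basis of a
graded Frechet space are continuous (Baire category and successive approximation).
-/

open Filter Topology

namespace QE
namespace K2

variable {X : Type*} [AddCommGroup X] [Module ℂ X]

lemma mono_le {N : ℕ → Seminorm ℂ X} (hN : Gr N) {p q : ℕ} (h : p ≤ q) (x : X) :
    N p x ≤ N q x := by
  induction h with
  | refl => exact le_rfl
  | step _ ih => exact ih.trans (hN.mono _ x)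

lemma sem_sum_le (P : Seminorm ℂ X) (s : Finset ℕ) (g : ℕ → X) :
    P (∑ i ∈ s, g i) ≤ ∑ i ∈ s, P (g i) := by
  classical
  induction s using Finset.induction_on with
  | empty => simp
  | insert a s ha ih =>
    rw [Finset.sum_insert ha, Finset.sum_insert ha]
    exact (map_add_le_add _ _ _).trans (add_le_add le_rfl ih)

/-- State of the nested ball construction: center, index of the norm, radius. -/
structure St (X : Type*) where
  x : X
  q : ℕ
  d : ℝ
  hd : 0 < d

/-- Baire's theorem for graded Frechet spaces. -/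
theorem baire {N : ℕ → Seminorm ℂ X} (hN : Gr N) (A : ℕ → Set X) (hA : ∀ x, ∃ m, x ∈ A m) :
    ∃ (m : ℕ) (x0 : X) (q : ℕ) (d : ℝ), 0 < d ∧ ∀ x, N q (x - x0) < d →
      ∀ (r : ℕ) (e : ℝ), 0 < e → ∃ y ∈ A m, N r (x - y) < e := by
  by_contra hcon
  push Not at hcon
  -- one step
  have step : ∀ (m : ℕ) (s : St X), ∃ t : St X, (∀ z, N t.q (z - t.x) ≤ t.d → N s.q (z - s.x) ≤ s.d)
      ∧ (∀ z, N t.q (z - t.x) ≤ t.d → z ∉ A m) ∧ m ≤ t.q ∧ t.d ≤ (1 / 2) ^ m := by
    intro m s
    obtain ⟨x, hx, r, e, he, h⟩ := hcon m s.x s.q (s.d / 2) (half_pos s.hd)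
    have hd' : 0 < min (min (s.d / 2) (e / 2)) ((1 / 2 : ℝ) ^ m) := by
      have := s.hd
      positivity
    refine ⟨⟨x, max (max s.q r) m, min (min (s.d / 2) (e / 2)) ((1 / 2) ^ m), hd'⟩, ?_, ?_, ?_, ?_⟩
    · intro z hz
      have h1 : N s.q (z - x) ≤ s.d / 2 := by
        refine (mono_le hN (le_trans (le_max_left _ _) (le_max_left _ _)) _).trans (hz.trans ?_)
        exact (min_le_left _ _).trans (min_le_left _ _)
      have h2 : z - s.x = (z - x) + (x - s.x) := by abel
      rw [h2]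
      have := map_add_le_add (N s.q) (z - x) (x - s.x)
      linarith
    · intro z hz hzA
      have h1 : N r (z - x) ≤ e / 2 := by
        refine (mono_le hN (le_trans (le_max_right _ _) (le_max_left _ _)) _).trans (hz.trans ?_)
        exact (min_le_left _ _).trans (min_le_right _ _)
      have h2 := h z hzA
      rw [← map_neg_eq_map (N r), neg_sub] at h2
      linarith
    · exact le_max_right _ _
    · exact min_le_right _ _
  choose nx hn1 hn2 hn3 hn4 using step
  let S : ℕ → St X := fun n => Nat.rec ⟨0, 0, 1, one_pos⟩ (fun m s => nx m s) n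
  have hS : ∀ m, S (m + 1) = nx m (S m) := fun m => rfl
  -- balls are nested
  have nest : ∀ m k z, N (S (m + k)).q (z - (S (m + k)).x) ≤ (S (m + k)).d →
      N (S m).q (z - (S m).x) ≤ (S m).d := by
    intro m k
    induction k with
    | zero => intro z hz; exact hz
    | succ k ih =>
      intro z hz
      apply ih
      have : m + (k + 1) = (m + k) + 1 := by ring
      rw [this, hS] at hz
      exact hn1 _ _ z hz
  have cen : ∀ m k, N (S m).q ((S (m + k)).x - (S m).x) ≤ (S m).d := by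
    intro m k
    apply nest m k
    simp only [sub_self, map_zero]
    exact (S (m + k)).hd.le
  have hq : ∀ m, m ≤ (S (m + 1)).q := fun m => by rw [hS]; exact hn3 _ _
  have hdd : ∀ m, (S (m + 1)).d ≤ (1 / 2) ^ m := fun m => by rw [hS]; exact hn4 _ _
  -- convergence
  have hsum : ∀ q, Summable fun i => N q ((S (i + 2)).x - (S (i + 1)).x) := by
    intro q
    rw [← summable_nat_add_iff q]
    refine Summable.of_nonneg_of_le (fun i => apply_nonneg _ _) (fun i => ?_)
      ((summable_nat_add_iff q).2 (summable_geometric_two))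
    have h1 := cen (i + q + 1) 1
    have h2 : N q ((S (i + q + 2)).x - (S (i + q + 1)).x) ≤
        N (S (i + q + 1)).q ((S (i + q + 2)).x - (S (i + q + 1)).x) :=
      mono_le hN (le_trans (by omega) (hq (i + q))) _
    exact h2.trans (h1.trans (hdd _))
  obtain ⟨y, hy⟩ := hN.comp _ hsum
  have htel : ∀ n, ∑ i ∈ Finset.range n, ((S (i + 2)).x - (S (i + 1)).x) =
      (S (n + 1)).x - (S 1).x := by
    intro n
    induction n with
    | zero => simp
    | succ n ih => rw [Finset.sum_range_succ, ih]; abel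
  have hz : ∀ q, Tendsto (fun n => N q (y + (S 1).x - (S (n + 1)).x)) atTop (𝓝 0) := by
    intro q
    refine (hy q).congr (fun n => ?_)
    rw [htel]
    congr 1
    abel
  obtain ⟨m, hm⟩ := hA (y + (S 1).x)
  have hin : N (S (m + 1)).q ((y + (S 1).x) - (S (m + 1)).x) ≤ (S (m + 1)).d := by
    have h1 : ∀ n, N (S (m + 1)).q ((y + (S 1).x) - (S (m + 1)).x) ≤
        N (S (m + 1)).q (y + (S 1).x - (S (m + n + 1)).x) + (S (m + 1)).d := by
      intro n
      have h2 := cen (m + 1) n
      have h3 : (y + (S 1).x) - (S (m + 1)).x = (y + (S 1).x - (S (m + n + 1)).x) +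
        ((S (m + n + 1)).x - (S (m + 1)).x) := by abel
      have h4 := map_add_le_add (N (S (m + 1)).q) (y + (S 1).x - (S (m + n + 1)).x)
        ((S (m + n + 1)).x - (S (m + 1)).x)
      rw [← h3] at h4
      have h5 : m + 1 + n = m + n + 1 := by ring
      rw [h5] at h2
      linarith
    have h6 : Tendsto (fun n => N (S (m + 1)).q (y + (S 1).x - (S (m + n + 1)).x) +
        (S (m + 1)).d) atTop (𝓝 (0 + (S (m + 1)).d)) := by
      apply Tendsto.add_const
      have := (hz (S (m + 1)).q).comp (tendsto_add_atTop_nat m)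
      refine this.congr (fun n => ?_)
      simp only [Function.comp]
      rw [add_comm n m]
    rw [zero_add] at h6
    exact ge_of_tendsto' h6 h1
  rw [hS] at hin
  exact hn2 m (S m) _ hin hm

section
variable {N : ℕ → Seminorm ℂ X} {f : ℕ → X}

/-- partial sums -/
noncomputable def Sm (c : ℕ → X →ₗ[ℂ] ℂ) (f : ℕ → X) (n : ℕ) (x : X) : X :=
  ∑ j ∈ Finset.range n, c j x • f j

lemma Sm_add (c : ℕ → X →ₗ[ℂ] ℂ) (f : ℕ → X) (n : ℕ) (x y : X) :
    Sm c f n (x + y) = Sm c f n x + Sm c f n y := by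
  simp [Sm, add_smul, Finset.sum_add_distrib]

lemma Sm_smul (c : ℕ → X →ₗ[ℂ] ℂ) (f : ℕ → X) (n : ℕ) (a : ℂ) (x : X) :
    Sm c f n (a • x) = a • Sm c f n x := by
  simp [Sm, mul_smul, Finset.smul_sum]

lemma Sm_succ (c : ℕ → X →ₗ[ℂ] ℂ) (f : ℕ → X) (n : ℕ) (x : X) :
    Sm c f (n + 1) x = Sm c f n x + c n x • f n := by
  simp [Sm, Finset.sum_range_succ]

/-- `P p x ≤ M` -/
def PB (N : ℕ → Seminorm ℂ X) (c : ℕ → X →ₗ[ℂ] ℂ) (f : ℕ → X) (p : ℕ) (x : X) (M : ℝ) : Prop :=
  ∀ n, N p (Sm c f n x) ≤ M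

variable {c : ℕ → X →ₗ[ℂ] ℂ}

lemma PB.add {p : ℕ} {x y : X} {M M' : ℝ} (h : PB N c f p x M) (h' : PB N c f p y M') :
    PB N c f p (x + y) (M + M') := by
  intro n
  rw [Sm_add]
  exact (map_add_le_add _ _ _).trans (add_le_add (h n) (h' n))

lemma PB.smul {p : ℕ} {x : X} {M : ℝ} (a : ℂ) (h : PB N c f p x M) :
    PB N c f p (a • x) (‖a‖ * M) := by
  intro n
  rw [Sm_smul, map_smul_eq_mul]
  exact mul_le_mul_of_nonneg_left (h n) (norm_nonneg _)

lemma PB.mono_idx (hN : Gr N) {p q : ℕ} (hpq : p ≤ q) {x : X} {M : ℝ} (h : PB N c f q x M) :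
    PB N c f p x M := fun n => (mono_le hN hpq _).trans (h n)

lemma PB.mono {p : ℕ} {x : X} {M M' : ℝ} (h : PB N c f p x M) (hM : M ≤ M') :
    PB N c f p x M' := fun n => (h n).trans hM

/-- every element is bounded -/
lemma PB.exists_bound (hexp : ∀ x q, Tendsto (fun n => N q (x - Sm c f n x)) atTop (𝓝 0))
    (p : ℕ) (x : X) : ∃ M, 0 ≤ M ∧ PB N c f p x M := by
  obtain ⟨M, hM⟩ := (hexp x p).bddAbove_range
  refine ⟨N p x + M, ?_, fun n => ?_⟩
  · have h0 : N p (x - Sm c f 0 x) ≤ M := hM ⟨0, rfl⟩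
    have := apply_nonneg (N p) (x - Sm c f 0 x)
    have := apply_nonneg (N p) x
    linarith
  · have h0 : N p (x - Sm c f n x) ≤ M := hM ⟨n, rfl⟩
    have h1 : Sm c f n x = x - (x - Sm c f n x) := by abel
    rw [h1]
    exact (map_sub_le_add _ _ _).trans (by linarith)

lemma PB.le (hexp : ∀ x q, Tendsto (fun n => N q (x - Sm c f n x)) atTop (𝓝 0))
    {p : ℕ} {x : X} {M : ℝ} (h : PB N c f p x M) : N p x ≤ M := by
  have h1 : ∀ n, N p x ≤ N p (x - Sm c f n x) + M := by
    intro n
    have h2 : x = (x - Sm c f n x) + Sm c f n x := by abel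
    have h3 := map_add_le_add (N p) (x - Sm c f n x) (Sm c f n x)
    rw [← h2] at h3
    linarith [h n]
  have h4 := (hexp x p).add_const M
  rw [zero_add] at h4
  exact ge_of_tendsto' h4 h1

lemma PB.coef {p : ℕ} {x : X} {M : ℝ} (h : PB N c f p x M) (i : ℕ) :
    ‖c i x‖ * N p (f i) ≤ 2 * M := by
  rw [← map_smul_eq_mul]
  have h1 : c i x • f i = Sm c f (i + 1) x - Sm c f i x := by rw [Sm_succ]; abel
  rw [h1]
  exact (map_sub_le_add _ _ _).trans (by linarith [h i, h (i + 1)])

/-- (i): `(X, P)` is complete -/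
theorem complete (hN : Gr N)
    (hexp : ∀ x q, Tendsto (fun n => N q (x - Sm c f n x)) atTop (𝓝 0))
    (huniq : ∀ (x : X) (g : ℕ → ℂ),
      (∀ q, Tendsto (fun n => N q (x - ∑ j ∈ Finset.range n, g j • f j)) atTop (𝓝 0)) →
      ∀ j, g j = c j x)
    (hf0 : ∀ j, f j ≠ 0)
    (u : ℕ → X) (m : ℕ → ℕ → ℝ) (hm : ∀ p, Summable (m p)) (hu : ∀ p k, PB N c f p (u k) (m p k))
    (y : X) (hy : ∀ q, Tendsto (fun n => N q (y - ∑ i ∈ Finset.range n, u i)) atTop (𝓝 0)) :
    ∀ p, PB N c f p y (∑' k, m p k) := by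
  have hm0 : ∀ p k, 0 ≤ m p k := fun p k => (apply_nonneg _ _).trans (hu p k 0)
  have hfpos : ∀ j, 0 < N 0 (f j) := fun j =>
    lt_of_le_of_ne (apply_nonneg _ _) (fun h => hf0 j (hN.pos _ h.symm))
  have hcs : ∀ j, Summable fun k => c j (u k) := by
    intro j
    refine Summable.of_norm_bounded (g := fun k => 2 * m 0 k / N 0 (f j))
      (((hm 0).mul_left 2).div_const _) (fun k => ?_)
    rw [le_div_iff₀ (hfpos j)]
    exact (hu 0 k).coef j
  set g : ℕ → ℂ := fun j => ∑' k, c j (u k) with hg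
  have hcl : ∀ j, Tendsto (fun K => ∑ k ∈ Finset.range K, c j (u k)) atTop (𝓝 (g j)) :=
    fun j => (hcs j).hasSum.tendsto_sum_nat
  -- convergence of the finite sums of basis elements, fixed n
  have hfin : ∀ p n, Tendsto (fun K => N p (∑ j ∈ Finset.range n, g j • f j -
      ∑ k ∈ Finset.range K, Sm c f n (u k))) atTop (𝓝 0) := by
    intro p n
    have h1 : ∀ K, ∑ j ∈ Finset.range n, g j • f j - ∑ k ∈ Finset.range K, Sm c f n (u k) =
        ∑ j ∈ Finset.range n, (g j - ∑ k ∈ Finset.range K, c j (u k)) • f j := by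
      intro K
      simp only [Sm]
      rw [Finset.sum_comm, ← Finset.sum_sub_distrib]
      apply Finset.sum_congr rfl
      intro j _
      rw [sub_smul, Finset.sum_smul]
    have h2 : ∀ K, N p (∑ j ∈ Finset.range n, g j • f j - ∑ k ∈ Finset.range K, Sm c f n (u k)) ≤
        ∑ j ∈ Finset.range n, ‖g j - ∑ k ∈ Finset.range K, c j (u k)‖ * N p (f j) := by
      intro K
      rw [h1]
      refine (sem_sum_le (N p) _ _).trans (le_of_eq ?_)
      apply Finset.sum_congr rfl
      intro j _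
      rw [map_smul_eq_mul]
    have h3 : Tendsto (fun K => ∑ j ∈ Finset.range n,
        ‖g j - ∑ k ∈ Finset.range K, c j (u k)‖ * N p (f j)) atTop (𝓝 0) := by
      rw [show (0 : ℝ) = ∑ j ∈ Finset.range n, 0 * N p (f j) by simp]
      apply tendsto_finsetSum
      intro j _
      apply Tendsto.mul_const
      have := ((hcl j).const_sub (g j)).norm
      simpa using this
    exact squeeze_zero (fun K => apply_nonneg _ _) h2 h3
  -- tail bound
  have htail : ∀ p n K, N p (∑ j ∈ Finset.range n, g j • f j -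
      ∑ k ∈ Finset.range K, Sm c f n (u k)) ≤ ∑' k, m p k - ∑ k ∈ Finset.range K, m p k := by
    intro p n K
    have h1 : ∀ L, K ≤ L → N p (∑ j ∈ Finset.range n, g j • f j -
        ∑ k ∈ Finset.range K, Sm c f n (u k)) ≤ N p (∑ j ∈ Finset.range n, g j • f j -
        ∑ k ∈ Finset.range L, Sm c f n (u k)) + (∑' k, m p k - ∑ k ∈ Finset.range K, m p k) := by
      intro L hL
      have h2 : ∑ j ∈ Finset.range n, g j • f j - ∑ k ∈ Finset.range K, Sm c f n (u k) =
          (∑ j ∈ Finset.range n, g j • f j - ∑ k ∈ Finset.range L, Sm c f n (u k)) +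
          ∑ k ∈ Finset.Ico K L, Sm c f n (u k) := by
        rw [Finset.sum_Ico_eq_sub _ hL]; abel
      rw [h2]
      refine (map_add_le_add _ _ _).trans (add_le_add le_rfl ?_)
      refine (sem_sum_le (N p) _ _).trans ?_
      refine (Finset.sum_le_sum (fun k _ => hu p k n)).trans ?_
      rw [Finset.sum_Ico_eq_sub _ hL]
      have := (hm p).sum_le_tsum (Finset.range L) (fun k _ => hm0 p k)
      linarith
    have h3 := (hfin p n).add_const (∑' k, m p k - ∑ k ∈ Finset.range K, m p k)
    rw [zero_add] at h3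
    exact ge_of_tendsto h3 (Filter.eventually_atTop.2 ⟨K, h1⟩)
  -- the expansion of y
  have hexpy : ∀ q, Tendsto (fun n => N q (y - ∑ j ∈ Finset.range n, g j • f j)) atTop (𝓝 0) := by
    intro p
    rw [Metric.tendsto_atTop]
    intro e he
    have t1 : Tendsto (fun K => ∑' k, m p k - ∑ k ∈ Finset.range K, m p k) atTop (𝓝 0) := by
      have := ((hm p).hasSum.tendsto_sum_nat).const_sub (∑' k, m p k)
      simpa using this
    obtain ⟨K1, hK1⟩ := Metric.tendsto_atTop.1 t1 (e / 3) (by positivity)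
    obtain ⟨K2, hK2⟩ := Metric.tendsto_atTop.1 (hy p) (e / 3) (by positivity)
    set K := max K1 K2
    have a1 := hK1 K (le_max_left _ _)
    have a2 := hK2 K (le_max_right _ _)
    rw [Real.dist_eq, sub_zero] at a1 a2
    have t2 : Tendsto (fun n => ∑ k ∈ Finset.range K, N p (u k - Sm c f n (u k))) atTop (𝓝 0) := by
      rw [show (0 : ℝ) = ∑ k ∈ Finset.range K, 0 by simp]
      apply tendsto_finsetSum
      intro k _
      exact hexp (u k) p
    obtain ⟨n0, hn0⟩ := Metric.tendsto_atTop.1 t2 (e / 3) (by positivity)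
    refine ⟨n0, fun n hn => ?_⟩
    have a3 := hn0 n hn
    rw [Real.dist_eq, sub_zero] at a3 ⊢
    rw [abs_of_nonneg (apply_nonneg _ _)]
    have e1 : y - ∑ j ∈ Finset.range n, g j • f j = (y - ∑ k ∈ Finset.range K, u k) +
        (∑ k ∈ Finset.range K, (u k - Sm c f n (u k))) -
        (∑ j ∈ Finset.range n, g j • f j - ∑ k ∈ Finset.range K, Sm c f n (u k)) := by
      rw [Finset.sum_sub_distrib]; abel
    rw [e1]
    have b1 := map_sub_le_add (N p) ((y - ∑ k ∈ Finset.range K, u k) +
        (∑ k ∈ Finset.range K, (u k - Sm c f n (u k))))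
        (∑ j ∈ Finset.range n, g j • f j - ∑ k ∈ Finset.range K, Sm c f n (u k))
    have b2 := map_add_le_add (N p) (y - ∑ k ∈ Finset.range K, u k)
        (∑ k ∈ Finset.range K, (u k - Sm c f n (u k)))
    have b3 := sem_sum_le (N p) (Finset.range K) (fun k => u k - Sm c f n (u k))
    have b4 := htail p n K
    have b5 := le_abs_self (∑' k, m p k - ∑ k ∈ Finset.range K, m p k)
    have b6 := le_abs_self (N p (y - ∑ k ∈ Finset.range K, u k))
    have b7 := le_abs_self (∑ k ∈ Finset.range K, N p (u k - Sm c f n (u k)))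
    linarith
  have hco := huniq y g hexpy
  intro p n
  have h1 : Sm c f n y = ∑ j ∈ Finset.range n, g j • f j := by
    simp only [Sm]
    apply Finset.sum_congr rfl
    intro j _
    rw [hco j]
  rw [h1]
  have := htail p n 0
  simpa using this

/-- (ii) -/
theorem approx (hN : Gr N)
    (hexp : ∀ x q, Tendsto (fun n => N q (x - Sm c f n x)) atTop (𝓝 0)) (p : ℕ) :
    ∃ (q : ℕ) (d : ℝ), 0 < d ∧ ∀ (x : X) (t : ℝ), 0 < t → N q x < d * t → ∀ (r : ℕ) (e : ℝ),
      0 < e → ∃ y, PB N c f p y t ∧ N r (x - y) < e := by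
  obtain ⟨m, x0, q, d, hd, h⟩ := baire hN (fun m => {x | PB N c f p x m}) (by
    intro x
    obtain ⟨M, _, hM⟩ := PB.exists_bound hexp p x
    obtain ⟨m, hm⟩ := exists_nat_ge M
    exact ⟨m, hM.mono hm⟩)
  have hm1 : (0 : ℝ) < 2 * m + 1 := by positivity
  refine ⟨q, d / (2 * m + 1), by positivity, fun x t ht hx r e he => ?_⟩
  have hts : (0 : ℝ) < (2 * m + 1) / t := by positivity
  set a : ℂ := (((2 * m + 1) / t : ℝ) : ℂ) with ha
  have han : ‖a‖ = (2 * m + 1) / t := by
    rw [ha, Complex.norm_real, Real.norm_of_nonneg hts.le]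
  have ha0 : a ≠ 0 := by
    rw [← norm_pos_iff, han]; exact hts
  have hx' : N q (a • x) < d := by
    rw [map_smul_eq_mul, han]
    calc (2 * m + 1) / t * N q x < (2 * m + 1) / t * (d / (2 * m + 1) * t) :=
          mul_lt_mul_of_pos_left hx hts
      _ = d := by field_simp
  have he' : 0 < e * ((2 * m + 1) / t) / 2 := by positivity
  obtain ⟨y1, hy1, hy1'⟩ := h (a • x + x0) (by simpa using hx') r _ he'
  obtain ⟨y2, hy2, hy2'⟩ := h x0 (by simpa using hd) r _ he'
  refine ⟨a⁻¹ • (y1 + (-1 : ℂ) • y2), ?_, ?_⟩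
  · have h3 : PB N c f p (y1 + (-1 : ℂ) • y2) (m + ‖(-1 : ℂ)‖ * m) :=
      PB.add hy1 (PB.smul (-1) hy2)
    refine (h3.smul a⁻¹).mono ?_
    rw [norm_inv, han, norm_neg, norm_one, one_mul, inv_div, div_mul_eq_mul_div,
      div_le_iff₀ hm1]
    nlinarith
  · have e1 : x - a⁻¹ • (y1 + (-1 : ℂ) • y2) =
        a⁻¹ • ((a • x + x0 - y1) - (x0 - y2)) := by
      have : x = a⁻¹ • (a • x) := by rw [smul_smul, inv_mul_cancel₀ ha0, one_smul]
      conv_lhs => rw [this]
      rw [← smul_sub]
      congr 1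
      rw [neg_smul, one_smul]
      abel
    rw [e1, map_smul_eq_mul, norm_inv, han]
    have h4 := map_sub_le_add (N r) (a • x + x0 - y1) (x0 - y2)
    have h5 : N r (a • x + x0 - y1 - (x0 - y2)) < e * ((2 * m + 1) / t) := by linarith
    calc ((2 * m + 1) / t)⁻¹ * N r (a • x + x0 - y1 - (x0 - y2)) <
          ((2 * m + 1) / t)⁻¹ * (e * ((2 * m + 1) / t)) :=
          mul_lt_mul_of_pos_left h5 (by positivity)
      _ = e := by field_simp

/-- (iii) -/
theorem bound (hN : Gr N)
    (hexp : ∀ x q, Tendsto (fun n => N q (x - Sm c f n x)) atTop (𝓝 0))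
    (huniq : ∀ (x : X) (g : ℕ → ℂ),
      (∀ q, Tendsto (fun n => N q (x - ∑ j ∈ Finset.range n, g j • f j)) atTop (𝓝 0)) →
      ∀ j, g j = c j x)
    (hf0 : ∀ j, f j ≠ 0) (p : ℕ) :
    ∃ (q : ℕ) (d : ℝ), 0 < d ∧ ∀ x : X, N q x < d → PB N c f p x 2 := by
  have hap := approx hN hexp
  choose q d hd H using hap
  refine ⟨q p, d p, hd p, fun x hx => ?_⟩
  -- step: from z with N (q (p+k)) z < d (p+k) (1/2)^k get y
  have step : ∀ (k : ℕ) (z : X), N (q (p + k)) z < d (p + k) * (1 / 2) ^ k →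
      ∃ y, PB N c f (p + k) y ((1 / 2) ^ k) ∧
        N (q (p + (k + 1))) (z - y) < d (p + (k + 1)) * (1 / 2) ^ (k + 1) ∧
        N k (z - y) < (1 / 2) ^ k := by
    intro k z hz
    have hpos : 0 < min (d (p + (k + 1)) * (1 / 2) ^ (k + 1)) ((1 / 2 : ℝ) ^ k) := by
      have := hd (p + (k + 1))
      positivity
    obtain ⟨y, hy, hy'⟩ := H (p + k) z ((1 / 2) ^ k) (by positivity) hz
      (max (q (p + (k + 1))) k) _ hpos
    refine ⟨y, hy, ?_, ?_⟩
    · exact (mono_le hN (le_max_left _ _) _).trans_lt (hy'.trans_le (min_le_left _ _))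
    · exact (mono_le hN (le_max_right _ _) _).trans_lt (hy'.trans_le (min_le_right _ _))
  choose F hF1 hF2 hF3 using step
  -- remainders
  let T : (k : ℕ) → {z : X // N (q (p + k)) z < d (p + k) * (1 / 2) ^ k} := fun k =>
    Nat.rec ⟨x, by simpa using hx⟩ (fun k z => ⟨z.1 - F k z.1 z.2, hF2 k z.1 z.2⟩) k
  have hT : ∀ k, (T (k + 1)).1 = (T k).1 - F k (T k).1 (T k).2 := fun k => rfl
  let u : ℕ → X := fun k => F k (T k).1 (T k).2
  have hu : ∀ k, PB N c f (p + k) (u k) ((1 / 2) ^ k) := fun k => hF1 k _ _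
  have hrem : ∀ n, x - ∑ i ∈ Finset.range n, u i = (T n).1 := by
    intro n
    induction n with
    | zero => simp [T]
    | succ n ih =>
      rw [Finset.sum_range_succ, hT]
      show x - (∑ i ∈ Finset.range n, u i + u n) = (T n).1 - u n
      rw [← ih]
      abel
  have hlim : ∀ r, Tendsto (fun n => N r (x - ∑ i ∈ Finset.range n, u i)) atTop (𝓝 0) := by
    intro r
    have h1 : ∀ n, r ≤ n → N r (x - ∑ i ∈ Finset.range (n + 1), u i) ≤ (1 / 2) ^ n := by
      intro n hn
      rw [hrem, hT]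
      exact (mono_le hN hn _).trans (hF3 n _ _).le
    rw [← tendsto_add_atTop_iff_nat 1]
    refine squeeze_zero' (Eventually.of_forall fun n => apply_nonneg _ _)
      (Filter.eventually_atTop.2 ⟨r, h1⟩) ?_
    exact tendsto_pow_atTop_nhds_zero_of_lt_one (by norm_num) (by norm_num)
  -- bounds in all norms
  have hM : ∀ r k, ∃ M, 0 ≤ M ∧ PB N c f r (u k) M := fun r k => PB.exists_bound hexp r (u k)
  choose M hM0 hM1 using hM
  let m : ℕ → ℕ → ℝ := fun r k => if r ≤ p + k then (1 / 2) ^ k else M r k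
  have hmS : ∀ r, Summable (m r) := by
    intro r
    rw [← summable_nat_add_iff r]
    refine ((summable_nat_add_iff r).2 summable_geometric_two).congr (fun k => ?_)
    simp only [m]
    rw [if_pos (by omega)]
  have hmP : ∀ r k, PB N c f r (u k) (m r k) := by
    intro r k
    simp only [m]
    split_ifs with h
    · exact PB.mono_idx hN h (hu k)
    · exact hM1 r k
  have := complete hN hexp huniq hf0 u m hmS hmP x hlim p
  refine this.mono (le_of_eq ?_)
  have : ∀ k, m p k = (1 / 2) ^ k := by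
    intro k
    simp only [m]
    rw [if_pos (by omega)]
  rw [tsum_congr this]
  exact tsum_geometric_two

end

end K2

variable {X : Type*} [AddCommGroup X] [Module ℂ X]

theorem k2_schauder_pr {N : ℕ → Seminorm ℂ X} (hN : Gr N) {f : ℕ → X} (hf : Schauder N f) :
    ∃ c : ℕ → X →ₗ[ℂ] ℂ, (∀ i j, c i (f j) = if i = j then 1 else 0) ∧
      (∀ p, ∃ q, ∃ C : ℝ, ∀ i x, ‖c i x‖ * N p (f i) ≤ C * N q x) ∧
      (∀ x q, Tendsto (fun n => N q (x - ∑ j ∈ Finset.range n, c j x • f j)) atTop (𝓝 0)) := by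
  classical
  have hex : ∀ x, ∃ c : ℕ → ℂ, ∀ q, Tendsto (fun n => N q (x - ∑ j ∈ Finset.range n, c j • f j))
      atTop (𝓝 0) := fun x => (hf x).exists
  choose co hco using hex
  have hun : ∀ (x : X) (g : ℕ → ℂ),
      (∀ q, Tendsto (fun n => N q (x - ∑ j ∈ Finset.range n, g j • f j)) atTop (𝓝 0)) →
      g = co x := fun x g hg => (hf x).unique hg (hco x)
  have hadd : ∀ x y, co (x + y) = co x + co y := by
    intro x y
    refine (hun _ _ (fun q => ?_)).symm
    have h1 := (hco x q).add (hco y q)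
    rw [add_zero] at h1
    refine squeeze_zero (fun n => apply_nonneg _ _) (fun n => ?_) h1
    have h2 : x + y - ∑ j ∈ Finset.range n, (co x + co y) j • f j =
        (x - ∑ j ∈ Finset.range n, co x j • f j) + (y - ∑ j ∈ Finset.range n, co y j • f j) := by
      simp only [Pi.add_apply, add_smul, Finset.sum_add_distrib]
      abel
    rw [h2]
    exact map_add_le_add _ _ _
  have hsmul : ∀ (a : ℂ) x, co (a • x) = a • co x := by
    intro a x
    refine (hun _ _ (fun q => ?_)).symm
    have h1 := (hco x q).const_mul ‖a‖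
    rw [mul_zero] at h1
    refine h1.congr (fun n => ?_)
    rw [← map_smul_eq_mul]
    congr 1
    simp only [Pi.smul_apply, smul_eq_mul, mul_smul, smul_sub, Finset.smul_sum]
  let c : ℕ → X →ₗ[ℂ] ℂ := fun j =>
    { toFun := fun x => co x j
      map_add' := fun x y => by rw [hadd]; rfl
      map_smul' := fun a x => by rw [hsmul]; rfl }
  have hc : ∀ j x, c j x = co x j := fun j x => rfl
  have hdual : ∀ i j, c i (f j) = if i = j then 1 else 0 := by
    intro i j
    have h := hun (f j) (fun i => if i = j then 1 else 0) (fun q => by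
      have : ∀ n, j + 1 ≤ n → N q (f j - ∑ i ∈ Finset.range n, (if i = j then (1 : ℂ) else 0) • f i)
          = 0 := by
        intro n hn
        have h1 : ∑ i ∈ Finset.range n, (if i = j then (1 : ℂ) else 0) • f i = f j := by
          rw [Finset.sum_eq_single j]
          · simp
          · intro b _ hb; simp [hb]
          · intro h; exact absurd (Finset.mem_range.2 (by omega)) h
        rw [h1]; simp
      refine tendsto_const_nhds.congr' ?_
      exact (Filter.eventually_atTop.2 ⟨j + 1, fun n hn => (this n hn).symm⟩))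
    rw [hc, ← h]
  have hexp : ∀ x q, Tendsto (fun n => N q (x - K2.Sm c f n x)) atTop (𝓝 0) := by
    intro x q
    exact hco x q
  have huniq : ∀ (x : X) (g : ℕ → ℂ),
      (∀ q, Tendsto (fun n => N q (x - ∑ j ∈ Finset.range n, g j • f j)) atTop (𝓝 0)) →
      ∀ j, g j = c j x := by
    intro x g hg j
    rw [hc, ← hun x g hg]
  have hf0 : ∀ j, f j ≠ 0 := by
    intro j h
    have := hdual j j
    rw [h, map_zero, if_pos rfl] at this
    exact zero_ne_one this
  refine ⟨c, hdual, ?_, fun x q => hexp x q⟩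
  intro p
  obtain ⟨q, d, hd, H⟩ := K2.bound hN hexp huniq hf0 p
  refine ⟨q, 8 / d, fun i x => ?_⟩
  by_cases hx : N q x = 0
  · have hx0 : x = 0 := hN.pos x (le_antisymm ((K2.mono_le hN (Nat.zero_le q) x).trans hx.le)
      (apply_nonneg _ _))
    subst hx0
    simp
  · have hxp : 0 < N q x := lt_of_le_of_ne (apply_nonneg _ _) (Ne.symm hx)
    have ht : (0 : ℝ) < d / (2 * N q x) := by positivity
    have h1 : N q (((d / (2 * N q x) : ℝ) : ℂ) • x) < d := by
      rw [map_smul_eq_mul, Complex.norm_real, Real.norm_of_nonneg ht.le]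
      have : d / (2 * N q x) * N q x = d / 2 := by field_simp
      rw [this]; linarith
    have h2 := (H _ h1).coef i
    rw [map_smul, norm_smul, Complex.norm_real, Real.norm_of_nonneg ht.le] at h2
    have h3 : ‖c i x‖ * N p (f i) = (2 * N q x / d) * (d / (2 * N q x) * ‖c i x‖ * N p (f i)) := by
      field_simp
    rw [h3]
    calc (2 * N q x / d) * (d / (2 * N q x) * ‖c i x‖ * N p (f i)) ≤ (2 * N q x / d) * (2 * 2) :=
          mul_le_mul_of_nonneg_left h2 (by positivity)
      _ = 8 / d * N q x := by ring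

end QE
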