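import Pool.Agent.Lib_helper79.QE.Nrm

/-!
Block K5 of the quasi-equivalence project: if `X` is isomorphic to `s(X)` and has an absolute basis,
then `X` has a rich absolute basis.
-/

open Filter Topology

namespace QE
namespace K5

/-- positive nondecreasing log-convex sequences -/
structure LC (a : ℕ → ℝ) : Prop where
  pos : ∀ q, 0 < a q
  mono : ∀ q, a q ≤ a (q + 1)
  lc : ∀ q, a (q + 1) ^ 2 ≤ a q * a (q + 2)

namespace LC
variable {a : ℕ → ℝ}

lemma monotone (h : LC a) : Monotone a := monotone_nat_of_le_succ h.mono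

lemma ratio (h : LC a) : Monotone (fun q => a (q + 1) / a q) := by
  apply monotone_nat_of_le_succ
  intro q
  rw [div_le_div_iff₀ (h.pos _) (h.pos _)]
  have := h.lc q
  nlinarith

lemma mul_le (h : LC a) (q v : ℕ) : a q * a v ≤ a 0 * a (q + v) := by
  induction v with
  | zero => rw [add_zero, mul_comm]
  | succ v ih =>
    have h1 : a (v + 1) / a v ≤ a (q + v + 1) / a (q + v) := h.ratio (Nat.le_add_left v q)
    have e1 : a q * a (v + 1) = a q * a v * (a (v + 1) / a v) := by
      have := (h.pos v).ne'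
      field_simp
    have e2 : a 0 * a (q + (v + 1)) = a 0 * a (q + v) * (a (q + v + 1) / a (q + v)) := by
      have := (h.pos (q + v)).ne'
      rw [← add_assoc]
      field_simp
    rw [e1, e2]
    have p0 := h.pos 0
    have p1 := h.pos (q + v)
    have p2 := h.pos v
    have p3 := h.pos (v + 1)
    exact mul_le_mul ih h1 (by positivity) (by positivity)

/-- normalised ratios -/
lemma rho_mul (h : LC a) (q v : ℕ) : a q / a 0 * (a v / a 0) ≤ a (q + v) / a 0 := by
  have p0 := h.pos 0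
  rw [div_mul_div_comm, div_le_div_iff₀ (by positivity) p0]
  have := h.mul_le q v
  nlinarith

lemma rho_mono (h : LC a) {q v : ℕ} (hqv : q ≤ v) : a q / a 0 ≤ a v / a 0 :=
  div_le_div_of_nonneg_right (h.monotone hqv) (h.pos 0).le

lemma rho_pos (h : LC a) (q : ℕ) : 0 < a q / a 0 := div_pos (h.pos q) (h.pos 0)

lemma one_le_rho (h : LC a) (q : ℕ) : 1 ≤ a q / a 0 := by
  have := h.rho_mono (Nat.zero_le q)
  rwa [div_self (h.pos 0).ne'] at this

lemma rho_pow (h : LC a) (q n : ℕ) : (a q / a 0) ^ n ≤ a (n * q) / a 0 := by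
  induction n with
  | zero => simp [(h.pos 0).ne']
  | succ n ih =>
    rw [pow_succ]
    calc (a q / a 0) ^ n * (a q / a 0) ≤ a (n * q) / a 0 * (a q / a 0) :=
          mul_le_mul_of_nonneg_right ih (h.rho_pos q).le
      _ ≤ a (n * q + q) / a 0 := h.rho_mul _ _
      _ = _ := by congr 2; ring

end LC

/-- Transfer of comparisons to normalised ratios. -/
lemma transfer {ι : Type*} (A B : ℕ → ι → ℝ) (hA : ∀ m, LC (fun q => A q m))
    (hB : ∀ m, LC (fun q => B q m))
    (hAB : ∀ p, ∃ s, ∃ C : ℝ, ∀ m, A p m ≤ C * B s m)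
    (hBA : ∀ p, ∃ s, ∃ C : ℝ, ∀ m, B p m ≤ C * A s m) (p : ℕ) :
    ∃ s, ∃ C : ℝ, 0 ≤ C ∧ ∀ m, A p m / A 0 m ≤ C * (B s m / B 0 m) := by
  obtain ⟨s1, C1, h1⟩ := hAB p
  obtain ⟨t, C2, h2⟩ := hBA 0
  obtain ⟨s3, C3, h3⟩ := hAB (t + t)
  refine ⟨max s1 s3 + max s1 s3, |C1| * |C3| * |C2| ^ 2, by positivity, fun m => ?_⟩
  have pA := fun q => (hA m).pos q
  have pB := fun q => (hB m).pos q
  try simp only at pA pB
  set s := max s1 s3
  have a1 : A p m ≤ |C1| * B s m := by
    refine (h1 m).trans ?_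
    exact mul_le_mul (le_abs_self _) ((hB m).monotone (le_max_left _ _)) (pB _).le (abs_nonneg _)
  have a2 : B 0 m ≤ |C2| * A t m :=
    (h2 m).trans (mul_le_mul_of_nonneg_right (le_abs_self _) (pA _).le)
  have a3 : A (t + t) m ≤ |C3| * B s m := by
    refine (h3 m).trans ?_
    exact mul_le_mul (le_abs_self _) ((hB m).monotone (le_max_right _ _)) (pB _).le (abs_nonneg _)
  have a4 : A t m * A t m ≤ A 0 m * A (t + t) m := (hA m).mul_le t t
  have a5 : B s m / B 0 m * (B s m / B 0 m) ≤ B (s + s) m / B 0 m := (hB m).rho_mul s s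
  have a6 : A p m / A 0 m ≤ |C1| * |C3| * |C2| ^ 2 * (B s m / B 0 m * (B s m / B 0 m)) := by
    rw [div_le_iff₀ (pA 0)]
    have e : |C1| * |C3| * |C2| ^ 2 * (B s m / B 0 m * (B s m / B 0 m)) * A 0 m =
      (|C1| * B s m) * (A 0 m * (|C3| * B s m)) * |C2| ^ 2 / (B 0 m) ^ 2 := by
      have := (pB 0).ne'
      field_simp
    rw [e, le_div_iff₀ (by have := pB 0; positivity)]
    have b1 : B 0 m ^ 2 ≤ |C2| ^ 2 * (A t m * A t m) := by
      have := pow_le_pow_left₀ (pB 0).le a2 2
      calc B 0 m ^ 2 ≤ (|C2| * A t m) ^ 2 := this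
        _ = _ := by ring
    have b2 : A t m * A t m ≤ A 0 m * (|C3| * B s m) :=
      a4.trans (mul_le_mul_of_nonneg_left a3 (pA 0).le)
    calc A p m * B 0 m ^ 2 ≤ (|C1| * B s m) * (|C2| ^ 2 * (A t m * A t m)) := by
          refine mul_le_mul a1 b1 (by positivity) ?_
          have := pB s; positivity
      _ ≤ (|C1| * B s m) * (|C2| ^ 2 * (A 0 m * (|C3| * B s m))) := by
          refine mul_le_mul_of_nonneg_left (mul_le_mul_of_nonneg_left b2 (by positivity)) ?_
          have := pB s; positivity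
      _ = _ := by ring
  exact a6.trans (mul_le_mul_of_nonneg_left a5 (by positivity))

variable {X : Type*} [AddCommGroup X] [Module ℂ X]

lemma lcN {N : ℕ → Seminorm ℂ X} (hN : Gr N) {x : X} (hx : x ≠ 0) : LC (fun q => N q x) := by
  have h0 : 0 < N 0 x := lt_of_le_of_ne (apply_nonneg _ _) (fun h => hx (hN.pos _ h.symm))
  refine ⟨fun q => ?_, fun q => hN.mono q x, fun q => hN.lc q x⟩
  induction q with
  | zero => exact h0
  | succ q ih => exact ih.trans_le (hN.mono q x)

lemma lcB {N : ℕ → Seminorm ℂ X} (hN : Gr N) {x : X} (hx : x ≠ 0) (i : ℕ) :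
    LC (fun q => N q x * ((i : ℝ) + 1) ^ q) := by
  have h := lcN hN hx
  have hi : (1 : ℝ) ≤ (i : ℝ) + 1 := by
    have : (0 : ℝ) ≤ i := Nat.cast_nonneg i
    linarith
  refine ⟨fun q => mul_pos (h.pos q) (by positivity), fun q => ?_, fun q => ?_⟩
  · exact mul_le_mul (h.mono q) (pow_le_pow_right₀ hi (Nat.le_succ q)) (by positivity)
      (h.pos (q + 1)).le
  · have := h.lc q
    try simp only at this
    calc (N (q + 1) x * ((i : ℝ) + 1) ^ (q + 1)) ^ 2 =
        N (q + 1) x ^ 2 * ((i : ℝ) + 1) ^ (2 * q + 2) := by ring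
      _ ≤ N q x * N (q + 2) x * ((i : ℝ) + 1) ^ (2 * q + 2) :=
        mul_le_mul_of_nonneg_right this (by positivity)
      _ = _ := by ring

/-! ### the space `s(X)` -/

lemma single_mem (N : ℕ → Seminorm ℂ X) (i : ℕ) (x : X) : (Pi.single i x : ℕ → X) ∈ sSub N := by
  intro q
  apply summable_of_ne_finset_zero (s := {i})
  intro j hj
  have : (Pi.single i x : ℕ → X) j = 0 := by
    rw [Pi.single_apply, if_neg]
    simpa using hj
  rw [this]
  simp

lemma N2_single (N : ℕ → Seminorm ℂ X) (i : ℕ) (x : X) (q : ℕ) :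
    N2 N q (Pi.single i x) = N q x * ((i : ℝ) + 1) ^ q := by
  unfold N2
  rw [tsum_eq_single i]
  · rw [Pi.single_eq_same]
    have : N q x ^ 2 * ((i : ℝ) + 1) ^ (2 * q) = (N q x * ((i : ℝ) + 1) ^ q) ^ 2 := by ring
    rw [this, Real.sqrt_sq (mul_nonneg (apply_nonneg _ _) (by positivity))]
  · intro j hj
    rw [Pi.single_eq_of_ne hj]
    simp

lemma term_le_N2 (N : ℕ → Seminorm ℂ X) (ξ : sSub N) (i q : ℕ) :
    N q ((ξ : ℕ → X) i) * ((i : ℝ) + 1) ^ q ≤ N2 N q ξ := by
  unfold N2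
  apply Real.le_sqrt_of_sq_le
  have h := (ξ.2 q).le_tsum i (fun j _ => by positivity)
  calc (N q ((ξ : ℕ → X) i) * ((i : ℝ) + 1) ^ q) ^ 2 =
      N q ((ξ : ℕ → X) i) ^ 2 * ((i : ℝ) + 1) ^ (2 * q) := by ring
    _ ≤ _ := h

lemma ne_zero_of_dual {b : ℕ → X} {c : ℕ → X →ₗ[ℂ] ℂ}
    (h : ∀ i j, c i (b j) = if i = j then 1 else 0) (i : ℕ) : b i ≠ 0 := by
  intro h0
  have := h i i
  rw [h0, map_zero, if_pos rfl] at this
  exact zero_ne_one this

end K5

variable {X : Type*} [AddCommGroup X] [Module ℂ X]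

open K5 in
theorem k5_rich_pr {N : ℕ → Seminorm ℂ X} (hN : Gr N) {g : ℕ → X} {c : ℕ → X →ₗ[ℂ] ℂ}
    (hg : AB N g c) (hS : SStable N) :
    ∃ (b : ℕ → X) (d : ℕ → X →ₗ[ℂ] ℂ), AB N b d ∧ Rich N b := by
  classical
  obtain ⟨Φ, hΦ1, hΦ2⟩ := hS
  have hg0 : ∀ l, g l ≠ 0 := ne_zero_of_dual hg.dual
  -- the basis
  let ξ : ℕ → sSub N := fun m =>
    ⟨Pi.single m.unpair.2 (g m.unpair.1), single_mem N m.unpair.2 (g m.unpair.1)⟩
  let b : ℕ → X := fun m => Φ (ξ m)
  let d : ℕ → X →ₗ[ℂ] ℂ := fun m =>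
    { toFun := fun x => c m.unpair.1 ((Φ.symm x : ℕ → X) m.unpair.2)
      map_add' := fun x y => by
        simp only [map_add, Submodule.coe_add, Pi.add_apply]
      map_smul' := fun a x => by
        simp only [map_smul, Submodule.coe_smul, Pi.smul_apply, RingHom.id_apply] }
  have hd : ∀ m x, d m x = c m.unpair.1 ((Φ.symm x : ℕ → X) m.unpair.2) := fun m x => rfl
  -- the comparison
  let A : ℕ → ℕ → ℝ := fun q m => N q (b m)
  let B : ℕ → ℕ → ℝ := fun q m => N q (g m.unpair.1) * ((m.unpair.2 : ℝ) + 1) ^ q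
  have hB2 : ∀ q m, N2 N q (ξ m) = B q m := fun q m => N2_single N _ _ q
  have hdual : ∀ m m', d m (b m') = if m = m' then 1 else 0 := by
    intro m m'
    rw [hd]
    have h1 : (Φ.symm (b m') : ℕ → X) = Pi.single m'.unpair.2 (g m'.unpair.1) := by
      simp [b, ξ]
    rw [h1]
    by_cases h2 : m.unpair.2 = m'.unpair.2
    · rw [h2, Pi.single_eq_same, hg.dual]
      by_cases h3 : m.unpair.1 = m'.unpair.1
      · rw [if_pos h3, if_pos]
        have : m.unpair = m'.unpair := Prod.ext h3 h2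
        rw [← Nat.pair_unpair m, this, Nat.pair_unpair]
      · rw [if_neg h3, if_neg]
        rintro rfl; exact h3 rfl
    · rw [Pi.single_eq_of_ne h2, map_zero, if_neg]
      rintro rfl; exact h2 rfl
  have hb0 : ∀ m, b m ≠ 0 := ne_zero_of_dual hdual
  have lcA : ∀ m, LC (fun q => A q m) := fun m => lcN hN (hb0 m)
  have lcB' : ∀ m, LC (fun q => B q m) := fun m => lcB hN (hg0 _) _
  have hAB : ∀ p, ∃ s, ∃ C : ℝ, ∀ m, A p m ≤ C * B s m := by
    intro p
    obtain ⟨q, C, h⟩ := hΦ1 p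
    exact ⟨q, C, fun m => by rw [← hB2]; exact h (ξ m)⟩
  have hBA : ∀ p, ∃ s, ∃ C : ℝ, ∀ m, B p m ≤ C * A s m := by
    intro p
    obtain ⟨q, C, h⟩ := hΦ2 p
    exact ⟨q, C, fun m => by rw [← hB2]; exact h (ξ m)⟩
  -- continuity of coordinates
  have hcoord : ∀ p, ∃ q, ∃ C : ℝ, 0 ≤ C ∧ ∀ x i, N p ((Φ.symm x : ℕ → X) i) * ((i : ℝ) + 1) ^ p ≤
      C * N q x := by
    intro p
    obtain ⟨q, C, h⟩ := hΦ2 p
    refine ⟨q, |C|, abs_nonneg _, fun x i => ?_⟩
    have h1 := h (Φ.symm x)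
    rw [LinearEquiv.apply_symm_apply] at h1
    refine (term_le_N2 N (Φ.symm x) i p).trans (h1.trans ?_)
    exact mul_le_mul_of_nonneg_right (le_abs_self _) (apply_nonneg _ _)
  have hbdd : ∀ p, ∃ q, ∃ C : ℝ, ∀ m x, ‖d m x‖ * N p (b m) ≤ C * N q x := by
    intro p
    obtain ⟨q, C, h1⟩ := hAB p
    obtain ⟨q1, C1, h2⟩ := hg.bdd q
    obtain ⟨q3, C3, hC3, h3⟩ := hcoord (max q q1)
    refine ⟨q3, |C| * |C1| * C3, fun m x => ?_⟩
    set i := m.unpair.2 with hi
    set l := m.unpair.1 with hl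
    have hi1 : (1 : ℝ) ≤ (i : ℝ) + 1 := by
      have : (0 : ℝ) ≤ i := Nat.cast_nonneg i
      linarith
    have e1 : N p (b m) ≤ |C| * (N q (g l) * ((i : ℝ) + 1) ^ q) := by
      refine (h1 m).trans ?_
      exact mul_le_mul_of_nonneg_right (le_abs_self _)
        (mul_nonneg (apply_nonneg _ _) (by positivity))
    have e2 : ‖d m x‖ * N q (g l) ≤ |C1| * N q1 ((Φ.symm x : ℕ → X) i) := by
      rw [hd]
      refine (h2 l _).trans ?_
      exact mul_le_mul_of_nonneg_right (le_abs_self _) (apply_nonneg _ _)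
    have e3 : N q1 ((Φ.symm x : ℕ → X) i) * ((i : ℝ) + 1) ^ q ≤ C3 * N q3 x := by
      refine le_trans ?_ (h3 x i)
      refine mul_le_mul ?_ (pow_le_pow_right₀ hi1 (le_max_left _ _)) (by positivity)
        (apply_nonneg _ _)
      exact monotone_nat_of_le_succ (f := fun q => N q ((Φ.symm x : ℕ → X) i))
        (fun q => hN.mono q _) (le_max_right _ _)
    calc ‖d m x‖ * N p (b m) ≤ ‖d m x‖ * (|C| * (N q (g l) * ((i : ℝ) + 1) ^ q)) :=
          mul_le_mul_of_nonneg_left e1 (norm_nonneg _)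
      _ = |C| * (‖d m x‖ * N q (g l)) * ((i : ℝ) + 1) ^ q := by ring
      _ ≤ |C| * (|C1| * N q1 ((Φ.symm x : ℕ → X) i)) * ((i : ℝ) + 1) ^ q := by
          refine mul_le_mul_of_nonneg_right ?_ (by positivity)
          exact mul_le_mul_of_nonneg_left e2 (abs_nonneg _)
      _ = |C| * |C1| * (N q1 ((Φ.symm x : ℕ → X) i) * ((i : ℝ) + 1) ^ q) := by ring
      _ ≤ |C| * |C1| * (C3 * N q3 x) := mul_le_mul_of_nonneg_left e3 (by positivity)
      _ = _ := by ring
  -- nuclearity
  have hnuc : ∃ v, Summable fun m => N 0 (b m) / N v (b m) := by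
    obtain ⟨vg, hvg⟩ := hg.nuc
    obtain ⟨q0, C, h1⟩ := hAB 0
    obtain ⟨v, C', h2⟩ := hBA (q0 + (vg + 2))
    refine ⟨v, ?_⟩
    have hs2 : Summable fun i : ℕ => (1 : ℝ) / ((i : ℝ) + 1) ^ 2 := by
      have := (summable_nat_add_iff 1).2 (Real.summable_one_div_nat_pow.2 (by norm_num : 1 < 2))
      refine this.congr (fun i => ?_)
      push_cast
      rfl
    have hprod : Summable fun z : ℕ × ℕ => (N 0 (g z.1) / N vg (g z.1)) *
        (1 / ((z.2 : ℝ) + 1) ^ 2) := by
      exact hvg.mul_of_nonneg hs2 (fun l => div_nonneg (apply_nonneg _ _) (apply_nonneg _ _))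
        (fun i => by positivity)
    have hprod2 : Summable fun m : ℕ => (N 0 (g m.unpair.1) / N vg (g m.unpair.1)) *
        (1 / ((m.unpair.2 : ℝ) + 1) ^ 2) := by
      have := (Nat.pairEquiv.symm.summable_iff (f := fun z : ℕ × ℕ =>
        (N 0 (g z.1) / N vg (g z.1)) * (1 / ((z.2 : ℝ) + 1) ^ 2))).2 hprod
      exact this
    refine Summable.of_nonneg_of_le (fun m => div_nonneg (apply_nonneg _ _) (apply_nonneg _ _))
      (fun m => ?_) (hprod2.mul_left (|C| * |C'|))
    set i := m.unpair.2 with hi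
    set l := m.unpair.1 with hl
    have hi1 : (1 : ℝ) ≤ (i : ℝ) + 1 := by
      have : (0 : ℝ) ≤ i := Nat.cast_nonneg i
      linarith
    have hi0 : (0 : ℝ) < (i : ℝ) + 1 := by positivity
    have lg := lcN hN (hg0 l)
    have pv : 0 < N v (b m) := (lcA m).pos v
    have e1 : N 0 (b m) ≤ |C| * (N q0 (g l) * ((i : ℝ) + 1) ^ q0) := by
      refine (h1 m).trans ?_
      exact mul_le_mul_of_nonneg_right (le_abs_self _)
        (mul_nonneg (apply_nonneg _ _) (by positivity))
    have e2 : N (q0 + (vg + 2)) (g l) * ((i : ℝ) + 1) ^ (q0 + (vg + 2)) ≤ |C'| * N v (b m) := by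
      refine (h2 m).trans ?_
      exact mul_le_mul_of_nonneg_right (le_abs_self _) (apply_nonneg _ _)
    have e3 : N q0 (g l) * N vg (g l) ≤ N 0 (g l) * N (q0 + (vg + 2)) (g l) := by
      refine (lg.mul_le q0 vg).trans ?_
      exact mul_le_mul_of_nonneg_left (lg.monotone (by omega)) (apply_nonneg _ _)
    have pg := lg.pos vg
    have pg0 := lg.pos 0
    have pgq := lg.pos q0
    have pgt := lg.pos (q0 + (vg + 2))
    try simp only at pg pg0 pgq pgt
    rw [div_le_iff₀ pv]
    have e4 : N q0 (g l) * ((i : ℝ) + 1) ^ q0 ≤ (N 0 (g l) / N vg (g l)) *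
        (1 / ((i : ℝ) + 1) ^ 2) * (|C'| * N v (b m)) := by
      have e5 : N q0 (g l) * ((i : ℝ) + 1) ^ q0 ≤ (N 0 (g l) / N vg (g l)) *
        (1 / ((i : ℝ) + 1) ^ 2) * (N (q0 + (vg + 2)) (g l) * ((i : ℝ) + 1) ^ (q0 + (vg + 2))) := by
        have e6 : N q0 (g l) ≤ N 0 (g l) / N vg (g l) * N (q0 + (vg + 2)) (g l) := by
          rw [div_mul_eq_mul_div, le_div_iff₀ pg]
          exact e3
        have e7 : (N 0 (g l) / N vg (g l)) *
          (1 / ((i : ℝ) + 1) ^ 2) * (N (q0 + (vg + 2)) (g l) * ((i : ℝ) + 1) ^ (q0 + (vg + 2))) =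
          N 0 (g l) / N vg (g l) * N (q0 + (vg + 2)) (g l) *
            (((i : ℝ) + 1) ^ q0 * ((i : ℝ) + 1) ^ vg) := by
          have := pg.ne'
          have := hi0.ne'
          field_simp
          ring
        rw [e7]
        refine mul_le_mul e6 ?_ (by positivity) (by positivity)
        have : (1 : ℝ) ≤ ((i : ℝ) + 1) ^ vg := one_le_pow₀ hi1
        have h4 : (0 : ℝ) < ((i : ℝ) + 1) ^ q0 := by positivity
        nlinarith
      refine e5.trans (mul_le_mul_of_nonneg_left e2 (by positivity))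
    calc N 0 (b m) ≤ |C| * (N q0 (g l) * ((i : ℝ) + 1) ^ q0) := e1
      _ ≤ |C| * ((N 0 (g l) / N vg (g l)) * (1 / ((i : ℝ) + 1) ^ 2) * (|C'| * N v (b m))) :=
          mul_le_mul_of_nonneg_left e4 (abs_nonneg _)
      _ = _ := by ring
  -- expansions
  have hexp : ∀ x q, Tendsto (fun n => N q (x - ∑ i ∈ Finset.range n, d i x • b i)) atTop
      (𝓝 0) := by
    intro x
    obtain ⟨v, hv⟩ := hnuc
    have habs : ∀ q, Summable fun m => N q (d m x • b m) := by
      intro q
      obtain ⟨r, C, h⟩ := hbdd (q + v)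
      refine Summable.of_nonneg_of_le (fun m => apply_nonneg _ _) (fun m => ?_)
        (hv.mul_left (C * N r x))
      have hl := lcA m
      have p0 := hl.pos 0
      have pv := hl.pos v
      have pq := hl.pos (q + v)
      try simp only at p0 pv pq
      have e1 : N q (b m) ≤ N (q + v) (b m) * (N 0 (b m) / N v (b m)) := by
        rw [← mul_div_assoc, le_div_iff₀ pv]
        have := hl.mul_le q v
        simp only [A] at this
        linarith
      rw [map_smul_eq_mul]
      calc ‖d m x‖ * N q (b m) ≤ ‖d m x‖ * (N (q + v) (b m) * (N 0 (b m) / N v (b m))) :=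
            mul_le_mul_of_nonneg_left e1 (norm_nonneg _)
        _ = ‖d m x‖ * N (q + v) (b m) * (N 0 (b m) / N v (b m)) := by ring
        _ ≤ C * N r x * (N 0 (b m) / N v (b m)) :=
            mul_le_mul_of_nonneg_right (h m x) (div_nonneg (apply_nonneg _ _) (apply_nonneg _ _))
    obtain ⟨y, hy⟩ := hN.comp _ habs
    have hdy : ∀ m, d m y = d m x := by
      intro m
      obtain ⟨r, C, h⟩ := hbdd 0
      have p0 := (lcA m).pos 0
      simp only [A] at p0
      have h1 : ∀ n, m + 1 ≤ n → ‖d m y - d m x‖ * N 0 (b m) ≤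
          C * N r (y - ∑ i ∈ Finset.range n, d i x • b i) := by
        intro n hn
        have h2 := h m (y - ∑ i ∈ Finset.range n, d i x • b i)
        have h3 : d m (y - ∑ i ∈ Finset.range n, d i x • b i) = d m y - d m x := by
          rw [map_sub, map_sum]
          congr 1
          rw [Finset.sum_eq_single m]
          · rw [map_smul, hdual, if_pos rfl, smul_eq_mul, mul_one]
          · intro j _ hj
            rw [map_smul, hdual, if_neg (Ne.symm hj), smul_zero]
          · intro h; exact absurd (Finset.mem_range.2 (by omega)) h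
        rw [h3] at h2
        exact h2
      have h4 : Tendsto (fun n => C * N r (y - ∑ i ∈ Finset.range n, d i x • b i)) atTop
          (𝓝 (C * 0)) := (hy r).const_mul C
      rw [mul_zero] at h4
      have h5 : ‖d m y - d m x‖ * N 0 (b m) ≤ 0 :=
        ge_of_tendsto h4 (Filter.eventually_atTop.2 ⟨m + 1, h1⟩)
      have h6 : ‖d m y - d m x‖ = 0 := by
        have := norm_nonneg (d m y - d m x)
        by_contra hne
        have : 0 < ‖d m y - d m x‖ := lt_of_le_of_ne this (Ne.symm hne)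
        have := mul_pos this p0
        linarith
      exact sub_eq_zero.1 (norm_eq_zero.1 h6)
    have hyx : y = x := by
      have h0 : ∀ i, (Φ.symm (y - x) : ℕ → X) i = 0 := by
        intro i
        have h1 : ∀ l, c l ((Φ.symm (y - x) : ℕ → X) i) = 0 := by
          intro l
          have h2 := hdy (Nat.pair l i)
          have h3 : d (Nat.pair l i) (y - x) = 0 := by rw [map_sub, h2, sub_self]
          rw [hd, Nat.unpair_pair] at h3
          exact h3
        have h4 := hg.exp ((Φ.symm (y - x) : ℕ → X) i) 0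
        simp only [h1, zero_smul, Finset.sum_const_zero, sub_zero] at h4
        exact hN.pos _ (tendsto_nhds_unique tendsto_const_nhds h4)
      have h1 : Φ.symm (y - x) = 0 := by
        apply Subtype.ext
        funext i
        exact h0 i
      have h2 : y - x = 0 := by
        have := congrArg Φ h1
        simpa using this
      exact sub_eq_zero.1 h2
    intro q
    rw [← hyx]
    have := hy q
    simp only [hdy] at *
    exact this
  refine ⟨b, d, ⟨hdual, hbdd, hnuc, hexp⟩, ?_⟩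
  -- richness
  obtain ⟨v, hv⟩ := hnuc
  refine ⟨v, fun q C0 => ?_⟩
  set W := ∑' m, N 0 (b m) / N v (b m) with hW
  have hW0 : 0 ≤ W := tsum_nonneg (fun m => div_nonneg (apply_nonneg _ _) (apply_nonneg _ _))
  have hU := transfer A B lcA lcB' hAB hBA
  have hL := transfer B A lcB' lcA hBA hAB
  choose s C hC hU using hU
  choose t D hD hL using hL
  have hBr : ∀ p m, B p m / B 0 m = N p (g m.unpair.1) / N 0 (g m.unpair.1) *
      ((m.unpair.2 : ℝ) + 1) ^ p := by
    intro p m
    simp only [B, pow_zero, mul_one]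
    ring
  simp only [hBr] at hU hL
  simp only [A] at hU hL
  set Q := max (t 1) q with hQ
  set K := D 1 + W * |C0| with hK
  have hK0 : 0 ≤ K := by
    have := hD 1
    positivity
  refine ⟨fun p => max (max (t (s p)) (s p * Q) + max (t (s p)) (s p * Q)) (t (s p)),
    fun p => max (C p * D (s p) * K ^ (s p)) (C p * D (s p)), fun m F hF => ?_⟩
  set i := m.unpair.2 with hi
  set l := m.unpair.1 with hl
  rcases F.eq_empty_or_nonempty with rfl | hFne
  · exact ⟨∅, le_rfl, by simp⟩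
  have lm := lcA m
  have hcard : (F.card : ℝ) ≤ W * |C0| * R N q (b m) := by
    have hRp : 0 < R N q (b m) := lm.rho_pos q
    have hC0 : 0 < C0 * R N q (b m) := by
      obtain ⟨j, hj⟩ := hFne
      exact ((lcA j).rho_pos v).trans_le (hF j hj)
    have h1 : ∀ j ∈ F, (1 : ℝ) ≤ C0 * R N q (b m) * (N 0 (b j) / N v (b j)) := by
      intro j hj
      have h2 := hF j hj
      unfold R at h2 ⊢
      have p0 := (lcA j).pos 0
      have pv := (lcA j).pos v
      simp only [A] at p0 pv
      rw [← mul_div_assoc, le_div_iff₀ pv, one_mul]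
      rw [div_le_iff₀ p0] at h2
      exact h2
    calc (F.card : ℝ) = ∑ j ∈ F, (1 : ℝ) := by simp
      _ ≤ ∑ j ∈ F, C0 * R N q (b m) * (N 0 (b j) / N v (b j)) := Finset.sum_le_sum h1
      _ = C0 * R N q (b m) * ∑ j ∈ F, (N 0 (b j) / N v (b j)) := by rw [Finset.mul_sum]
      _ ≤ C0 * R N q (b m) * W := by
          refine mul_le_mul_of_nonneg_left ?_ hC0.le
          exact hv.sum_le_tsum F (fun j _ => div_nonneg (apply_nonneg _ _) (apply_nonneg _ _))
      _ ≤ |C0| * R N q (b m) * W := by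
          refine mul_le_mul_of_nonneg_right ?_ hW0
          exact mul_le_mul_of_nonneg_right (le_abs_self _) hRp.le
      _ = _ := by ring
  -- bound of the index
  have hiR : ((i : ℝ) + 1) ≤ D 1 * R N (t 1) (b m) := by
    have h1 := hL 1 m
    rw [pow_one] at h1
    refine le_trans ?_ h1
    have h2 : (1 : ℝ) ≤ N 1 (g l) / N 0 (g l) := (lcN hN (hg0 l)).one_le_rho 1
    have h3 : (0 : ℝ) < (i : ℝ) + 1 := by positivity
    nlinarith
  refine ⟨(Finset.range F.card).map ⟨fun k => Nat.pair l (i + k), fun k k' h => by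
    have := congrArg (fun z => z.unpair.2) h
    simpa using this⟩, by simp, ?_⟩
  intro m' hm'
  rw [Finset.mem_map] at hm'
  obtain ⟨k, hk, rfl⟩ := hm'
  rw [Finset.mem_range] at hk
  simp only [Function.Embedding.coeFn_mk]
  set m' := Nat.pair l (i + k) with hm'
  have hl' : m'.unpair.1 = l := by rw [hm', Nat.unpair_pair]
  have hi' : m'.unpair.2 = i + k := by rw [hm', Nat.unpair_pair]
  have hi'R : (((i + k : ℕ) : ℝ) + 1) ≤ K * R N Q (b m) := by
    have h1 : (k : ℝ) ≤ F.card := by exact_mod_cast hk.le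
    have h2 : R N (t 1) (b m) ≤ R N Q (b m) := lm.rho_mono (le_max_left _ _)
    have h3 : R N q (b m) ≤ R N Q (b m) := lm.rho_mono (le_max_right _ _)
    have h4 := mul_le_mul_of_nonneg_left h2 (hD 1)
    have h5 := mul_le_mul_of_nonneg_left h3 (by positivity : 0 ≤ W * |C0|)
    push_cast
    rw [hK]
    linarith
  have hRQ : 0 < R N Q (b m) := lm.rho_pos Q
  have hgl := lcN hN (hg0 l)
  intro p
  have hRs : 0 < N (s p) (g l) / N 0 (g l) := hgl.rho_pos (s p)
  have hi1 : (1 : ℝ) ≤ (i : ℝ) + 1 := by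
    have : (0 : ℝ) ≤ i := Nat.cast_nonneg i
    linarith
  constructor
  · -- R p (b m') ≤ ...
    have h1 := hU p m'
    rw [hl', hi'] at h1
    have h2 : N (s p) (g l) / N 0 (g l) ≤ D (s p) * R N (t (s p)) (b m) := by
      refine le_trans ?_ (hL (s p) m)
      have : (1 : ℝ) ≤ ((i : ℝ) + 1) ^ s p := one_le_pow₀ hi1
      nlinarith
    have h3 : (((i + k : ℕ) : ℝ) + 1) ^ s p ≤ K ^ s p * R N (s p * Q) (b m) := by
      calc (((i + k : ℕ) : ℝ) + 1) ^ s p ≤ (K * R N Q (b m)) ^ s p :=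
            pow_le_pow_left₀ (by positivity) hi'R _
        _ = K ^ s p * R N Q (b m) ^ s p := by rw [mul_pow]
        _ ≤ _ := mul_le_mul_of_nonneg_left (lm.rho_pow Q (s p)) (by positivity)
    set u := max (t (s p)) (s p * Q) with hu
    have h4 : R N (t (s p)) (b m) * R N (s p * Q) (b m) ≤ R N (u + u) (b m) := by
      refine le_trans ?_ (lm.rho_mul u u)
      exact mul_le_mul (lm.rho_mono (le_max_left _ _)) (lm.rho_mono (le_max_right _ _))
        (lm.rho_pos _).le (lm.rho_pos _).le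
    have h5 : R N (u + u) (b m) ≤ R N (max (u + u) (t (s p))) (b m) :=
      lm.rho_mono (le_max_left _ _)
    have hR1 : 0 < R N (t (s p)) (b m) := lm.rho_pos _
    have hR2 : 0 < R N (s p * Q) (b m) := lm.rho_pos _
    have hR3 : 0 < R N (max (u + u) (t (s p))) (b m) := lm.rho_pos _
    have hCp := hC p
    have hDp := hD (s p)
    calc R N p (b m') ≤ C p * (N (s p) (g l) / N 0 (g l) * (((i + k : ℕ) : ℝ) + 1) ^ s p) := h1
      _ ≤ C p * (D (s p) * R N (t (s p)) (b m) * (K ^ s p * R N (s p * Q) (b m))) := by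
          refine mul_le_mul_of_nonneg_left (mul_le_mul h2 h3 (by positivity) ?_) hCp
          positivity
      _ = C p * D (s p) * K ^ s p * (R N (t (s p)) (b m) * R N (s p * Q) (b m)) := by ring
      _ ≤ C p * D (s p) * K ^ s p * R N (max (u + u) (t (s p))) (b m) :=
          mul_le_mul_of_nonneg_left (h4.trans h5) (by positivity)
      _ ≤ _ := mul_le_mul_of_nonneg_right (le_max_left _ _) hR3.le
  · have lm' := lcA m'
    have h1 := hU p m
    have h2 := hL (s p) m'
    rw [hl', hi'] at h2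
    have h3 : N (s p) (g l) / N 0 (g l) * ((i : ℝ) + 1) ^ s p ≤
        N (s p) (g l) / N 0 (g l) * (((i + k : ℕ) : ℝ) + 1) ^ s p := by
      refine mul_le_mul_of_nonneg_left (pow_le_pow_left₀ (by positivity) ?_ _) hRs.le
      push_cast
      have : (0 : ℝ) ≤ k := Nat.cast_nonneg k
      linarith
    have hCp := hC p
    have hDp := hD (s p)
    set u := max (t (s p)) (s p * Q) with hu
    have h5 : R N (t (s p)) (b m') ≤ R N (max (u + u) (t (s p))) (b m') :=
      lm'.rho_mono (le_max_right _ _)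
    have hR3 : 0 < R N (max (u + u) (t (s p))) (b m') := lm'.rho_pos _
    calc R N p (b m) ≤ C p * (N (s p) (g l) / N 0 (g l) * ((i : ℝ) + 1) ^ s p) := h1
      _ ≤ C p * (D (s p) * R N (t (s p)) (b m')) :=
          mul_le_mul_of_nonneg_left (h3.trans h2) hCp
      _ = C p * D (s p) * R N (t (s p)) (b m') := by ring
      _ ≤ C p * D (s p) * R N (max (u + u) (t (s p))) (b m') :=
          mul_le_mul_of_nonneg_left h5 (by positivity)
      _ ≤ _ := mul_le_mul_of_nonneg_right (le_max_right _ _) hR3.le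

end QE
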